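import Pool.Agent.Lib.helper21.Fn
import Pool.Agent.Lib.helper21.RE

set_option autoImplicit false

namespace Pool.Agent.H.MP_743c94_lc

open Pool.Agent.Lib.helper21 PR Filter

attribute [local irreducible] Primrec Computable

theorem ramsey (c : ℕ → ℕ → Bool) : ∃ h : ℕ → Bool, {n | h n = true}.Infinite ∧ ∃ i, ∀ x y, x < y → h x = true → h y = true → c x y = i := by
  classical
  have a : ∀ f : ℕ → Bool, ∃ i, ∀ᶠ y in hyperfilter ℕ, f y = i := fun f => by
    by_cases h : ∀ᶠ y in hyperfilter ℕ, f y = true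
    exacts [⟨_, h⟩, ⟨false, (Ultrafilter.eventually_not.2 h).mono fun _ b => by simpa using b⟩]
  choose d b using fun x => a (c x)
  obtain ⟨i, e⟩ := a d
  obtain ⟨f, g, k⟩ := exists_seq_of_forall_finset_exists (d · = i) (fun x y => x < y ∧ c x y = i) fun s h =>
    (e.and ((eventually_all_finset s).2 fun x l => ((eventually_gt_atTop x).filter_mono Nat.hyperfilter_le_atTop).and (h x l ▸ b x))).exists
  have m : StrictMono f := fun _ _ h => (k _ _ h).1
  refine ⟨fun n => decide (n ∈ Set.range f), (Set.infinite_range_of_injective m.injective).mono fun _ h => by simpa using h, i, ?_⟩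
  intro x y l r s
  obtain ⟨x, rfl⟩ := of_decide_eq_true r
  obtain ⟨y, rfl⟩ := of_decide_eq_true s
  exact (k _ _ (m.lt_iff_lt.1 l)).2

theorem propB (A : ℕ → Finset ℕ) : ∀ n, ∃ R B : Finset ℕ, Disjoint R B ∧ R.card ≤ n ∧ B.card ≤ n ∧
    ∀ e < n, 2 * e + 2 ≤ (A e).card → ∃ x ∈ A e, ∃ y ∈ A e, x ∈ R ∧ y ∈ B
  | 0 => ⟨∅, ∅, by simp⟩
  | n + 1 => by
    obtain ⟨R, B, a, b, c, d⟩ := propB A n
    by_cases h : 2 * n + 2 ≤ (A n).card
    · have := Finset.le_card_sdiff (R ∪ B) (A n)
      have := Finset.card_union_le R B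
      obtain ⟨x, f, y, g, k⟩ := Finset.one_lt_card.1 (show 1 < (A n \ (R ∪ B)).card by omega)
      simp only [Finset.mem_sdiff, Finset.mem_union, not_or] at f g
      refine ⟨insert x R, insert y B, by simp [a, f, g, k.symm], (Finset.card_insert_le ..).trans (by omega),
        (Finset.card_insert_le ..).trans (by omega), fun e l m => ?_⟩
      rcases (Nat.lt_succ_iff.1 l).eq_or_lt with rfl | l
      · exact ⟨x, f.1, y, g.1, by simp, by simp⟩
      · obtain ⟨u, p, v, q, r, s⟩ := d e l m
        exact ⟨u, p, v, q, by simp [r], by simp [s]⟩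
    · exact ⟨R, B, a, by omega, by omega, fun e l m => d e ((Nat.lt_succ_iff.1 l).lt_of_ne fun k => h (k ▸ m)) m⟩

variable {α : Type} [Primcodable α]

@[irreducible] def at' (e : ℕ) (τ : List Bool) (u j : ℕ) : ℕ := Fn.att e (fun i => τ.getD (2 * i) false) u j

@[fun_prop] theorem p_cd {τ : α → List Bool} {k : α → ℕ} (a : Primrec τ) (b : Primrec k) :
    Primrec fun z => Fn.cd (fun i => (τ z).getD (2 * i) false) (k z) :=
  (p_rec (g := fun _ => 0) (h := fun z s r => 2 ^ s * ((τ z).getD (2 * s) false).toNat + r) b (by fun_prop) (by fun_prop)).of_eq fun z => by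
    induction k z with
    | zero => rfl
    | succ n h => exact congrArg _ h

@[fun_prop] theorem p_at {τ : α → List Bool} {e u j : α → ℕ} (a : Primrec e) (b : Primrec τ) (c : Primrec u) (d : Primrec j) :
    Primrec fun z => at' (e z) (τ z) (u z) (j z) := by
  unfold at' Fn.att Fn.raw
  fun_prop

@[fun_prop] theorem p_tb {m n : α → ℕ} (a : Primrec m) (b : Primrec n) : Primrec fun z => Fn.tb (m z) (n z) := Fn.tb_prim.comp a b

def P (τ : List Bool) (y e x : ℕ) : Prop := (∃ u < y, at' e τ u x = 2) ∧ ∀ m < y, x ≤ m → τ.getD (2 * m + 1) false = false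

open Classical in
def Good (τ : List Bool) (y b : ℕ) : Prop := ∀ e < y, 2 * e + 2 ≤ ((Finset.range y).filter (P τ y e)).card →
  ∃ x < y, ∃ x' < y, P τ y e x ∧ P τ y e x' ∧ Fn.tb b x ≠ Fn.tb b x'

open Classical in
noncomputable def sel (τ : List Bool) (y : ℕ) : ℕ := ((List.range (2 ^ y)).find? fun b => decide (Good τ y b)).getD 0

theorem sel_good (τ : List Bool) (y : ℕ) : Good τ y (sel τ y) := by
  classical
  obtain ⟨R, B, a, -, -, d⟩ := propB (fun e => (Finset.range y).filter (P τ y e)) y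
  have : Good τ y (Fn.cd (fun i => decide (i ∈ B)) y) := fun e b c => by
    obtain ⟨u, p, v, q, r, s⟩ := d e b (by convert c)
    simp only [Finset.mem_filter, Finset.mem_range] at p q
    exact ⟨u, p.1, v, q.1, p.2, q.2, by simp [Fn.tb_cd, p.1, q.1, s, Finset.disjoint_left.1 a r]⟩
  obtain ⟨b, h⟩ := Option.isSome_iff_exists.1 ((List.find?_isSome (p := fun b => decide (Good τ y b))).2
    ⟨_, List.mem_range.2 (Fn.cd_lt _ y), decide_eq_true this⟩)
  have k := of_decide_eq_true (List.find?_some (p := fun b => decide (Good τ y b)) h)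
  rwa [show sel τ y = b from congrArg (·.getD 0) h]

open Classical in
@[irreducible] noncomputable def col (τ : List Bool) (x y : ℕ) : Bool :=
  if ∃ m < y, x ≤ m ∧ τ.getD (2 * m + 1) false = true then decide (∃ m < y, x ≤ m ∧ τ.getD (2 * m + 1) false = true ∧ m % 2 = 1)
  else Fn.tb (sel τ y) x

@[fun_prop] theorem p_col {τ : α → List Bool} {x y : α → ℕ} (a : Primrec τ) (b : Primrec x) (c : Primrec y) :
    Primrec fun z => col (τ z) (x z) (y z) := by
  have : Primrec fun z : List Bool × ℕ × ℕ => col z.1 z.2.1 z.2.2 := by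
    unfold col sel Good P
    fun_prop
  exact this.comp (a.pair (b.pair c))

def pr (p : ℕ → Bool) (k : ℕ) : List Bool := (List.range k).map p

theorem pr_getD {p : ℕ → Bool} {k i : ℕ} (h : i < k) : (pr p k).getD i false = p i := by simp [pr, h]

noncomputable def C (p : ℕ → Bool) (x y : ℕ) : Bool := col (pr p (2 * y)) x y

theorem non (p h : ℕ → Bool) (r : ∀ m n, p (2 * m + 1) = true → p (2 * n + 1) = true → m = n) (a : {n | h n = true}.Infinite) {i : Bool}
    (b : ∀ x y, x < y → h x = true → h y = true → C p x y = i) :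
    ¬TuringReducible (fun n => Part.some (h n).toNat) fun n => Part.some (p (2 * n)).toNat := fun c => by
  classical
  obtain ⟨e, c⟩ := Fn.complete (fun n => p (2 * n)) _ c
  obtain ⟨M, d⟩ : ∃ M, ∀ m, M < m → p (2 * m + 1) = false := by
    by_cases k : ∃ M, p (2 * M + 1) = true
    · exact k.imp fun M k m l => Bool.eq_false_iff.2 fun n => l.ne (r _ _ k n)
    · exact ⟨0, fun m _ => Bool.eq_false_iff.2 fun n => k ⟨m, n⟩⟩
  obtain ⟨T, f, g⟩ := (a.sdiff (Set.finite_Iic M)).exists_subset_card_eq (2 * e + 2)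
  have t : ∀ y, ∀ u < y, ∀ x, at' e (pr p (2 * y)) u x = Fn.att e (fun n => p (2 * n)) u x := fun y u k x => by
    unfold at'
    exact Fn.att_congr e (fun i l => pr_getD (by omega)) k.le x
  obtain ⟨y, k, l, m⟩ := ((Nat.frequently_atTop_iff_infinite.2 a).and_eventually ((eventually_gt_atTop e).and
    ((eventually_all_finset T).2 fun x k => (c x).1.elim fun u l => (eventually_gt_atTop (max u x)).mono fun y m =>
      (⟨by omega, ⟨u, by omega, by rw [t y u (by omega), (c x).2 u l, show h x = true from (f k).1]; rfl⟩, fun n o q => by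
        rw [pr_getD (by omega)]
        exact d n (lt_of_lt_of_le (not_le.1 (f k).2) q)⟩ : x < y ∧ P (pr p (2 * y)) y e x)))).exists
  obtain ⟨x, n, x', o, q, s, u⟩ := sel_good (pr p (2 * y)) y e l (g ▸ Finset.card_le_card fun x n => by simpa using m x n)
  have v : ∀ x < y, P (pr p (2 * y)) y e x → Fn.tb (sel (pr p (2 * y)) y) x = i := fun x n ⟨⟨u, o, q⟩, s⟩ => by
    rw [t y u o] at q
    rw [← b x y n (by have := (c x).2 u (by omega); cases v : h x <;> simp_all) k, C, col, if_neg]
    rintro ⟨m, a, b, c⟩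
    exact Bool.false_ne_true ((s m a b).symm.trans c)
  exact u ((v x n q).trans (v x' o s).symm)

open Classical in
@[irreducible] noncomputable def ans (τ : List Bool) (x y : ℕ) : Bool :=
  if ∃ m < x, τ.getD (2 * m + 1) false = true then decide (∃ m < x, τ.getD (2 * m + 1) false = true ∧ m % 2 = 0) else !col τ x y

@[fun_prop] theorem p_ans {τ : α → List Bool} {x y : α → ℕ} (a : Primrec τ) (b : Primrec x) (c : Primrec y) :
    Primrec fun z => ans (τ z) (x z) (y z) := by
  unfold ans
  fun_prop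

theorem llpo (p h : ℕ → Bool) (r : ∀ m n, p (2 * m + 1) = true → p (2 * n + 1) = true → m = n) (a : {n | h n = true}.Infinite) {i : Bool}
    (b : ∀ x y, x < y → h x = true → h y = true → C p x y = i) :
    ∃ j : Bool, (∀ n, p (2 * (2 * n + j.toNat) + 1) = false) ∧ ∀ x y, x < y → h x = true → h y = true → ans (pr p (2 * y)) x y = j := by
  by_cases k : ∃ M, p (2 * M + 1) = true
  · obtain ⟨M, k⟩ := k
    refine ⟨decide (M % 2 = 0), fun n => Bool.eq_false_iff.2 fun l => ?_, fun x y c d e => ?_⟩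
    · have := r _ _ k l
      by_cases u : M % 2 = 0 <;> simp only [u, decide_true, decide_false, Bool.toNat_true, Bool.toNat_false] at this <;> omega
    have t : ∀ y, ∀ m < y, (pr p (2 * y)).getD (2 * m + 1) false = true ↔ m = M := fun y m l => by
      rw [pr_getD (by omega)]
      exact ⟨fun s => r _ _ s k, fun s => s ▸ k⟩
    unfold ans
    split_ifs with f
    · obtain ⟨m, f, g⟩ := f
      obtain rfl := (t y m (by omega)).1 g
      exact decide_eq_decide.2 ⟨fun ⟨n, l, s, u⟩ => (t y n (by omega)).1 s ▸ u, fun u => ⟨m, f, g, u⟩⟩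
    · have g : x ≤ M := not_lt.1 fun g => f ⟨M, g, (t y M (by omega)).2 rfl⟩
      obtain ⟨z, l, s⟩ := a.exists_gt M
      rw [show col (pr p (2 * y)) x y = C p x z from (b x y c d e).trans (b x z (by omega) d l).symm, C, col,
        if_pos ⟨M, s, g, (t z M s).2 rfl⟩, ← decide_not]
      exact decide_eq_decide.2 ⟨fun u => by_contra fun v => u ⟨M, s, g, (t z M s).2 rfl, by omega⟩,
        fun u ⟨n, l, _, s, v⟩ => by have := (t z n l).1 s; omega⟩
  · refine ⟨!i, fun n => Bool.eq_false_iff.2 fun l => k ⟨_, l⟩, fun x y c d e => ?_⟩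
    rw [ans, if_neg fun ⟨m, f, g⟩ => k ⟨m, by rwa [pr_getD (by omega)] at g⟩, ← b x y c d e, C]

end Pool.Agent.H.MP_743c94_lc
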